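import Mathlib

/-!
# MP_db21b4_co: bowtie orientations with three edges directed toward the centre

For every orientation type of the bowtie with exactly three centre edges directed toward the
centre, the complete graph on five vertices has more than `2 ^ ex(5, B)` orientations avoiding it.
-/

namespace Pool.Agent.Results.MP_db21b4_co.FiveVertices

open SimpleGraph

/-- The bowtie: two triangles `0,1,2` and `0,3,4` sharing the centre `0`. -/
def bowtie : SimpleGraph (Fin 5) :=
  SimpleGraph.fromRel (fun u v => u = 0 ∨ (u = 1 ∧ v = 2) ∨ (u = 3 ∧ v = 4))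

/-- `r` is an orientation of `G`: each edge gets exactly one direction. -/
def IsOrientation {V : Type} (G : SimpleGraph V) (r : V → V → Prop) : Prop :=
  ∀ u v, (G.Adj u v ↔ (r u v ∨ r v u)) ∧ ¬ (r u v ∧ r v u)

/-- The oriented graph `r` contains a copy of the oriented graph `s`. -/
def Contains {W V : Type} (s : W → W → Prop) (r : V → V → Prop) : Prop :=
  ∃ f : W → V, Function.Injective f ∧ ∀ a b, s a b → r (f a) (f b)

/-- The number of `s`-free orientations of `G`. -/
noncomputable def orientCount {W V : Type} (G : SimpleGraph V) (s : W → W → Prop) : ℕ :=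
  {r : V → V → Prop | IsOrientation G r ∧ ¬ Contains s r}.ncard

/-- `D(n, s)`: the largest number of `s`-free orientations of a graph on `n` vertices. -/
noncomputable def maxOrient {W : Type} (n : ℕ) (s : W → W → Prop) : ℕ :=
  sSup {k | ∃ G : SimpleGraph (Fin n), orientCount G s = k}

/-- The orientations of the bowtie with the edges `10`, `20`, `30` directed toward the centre `0`
and `04` directed away from it; the edge `12` goes from `1` to `2`, and the edge `34` goes from `3`
to `4` if `t` is true and from `4` to `3` otherwise. -/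
def bow (t : Bool) (u v : Fin 5) : Prop :=
  (u = 1 ∧ v = 0) ∨ (u = 2 ∧ v = 0) ∨ (u = 1 ∧ v = 2) ∨ (u = 3 ∧ v = 0) ∨ (u = 0 ∧ v = 4) ∨
    (if t then (u = 3 ∧ v = 4) else (u = 4 ∧ v = 3))

/-- The position of the pair `i < j` in the code of a tournament on five vertices. -/
def idx (i j : ℕ) : ℕ := (9 - i) * i / 2 + j - i - 1

/-- The tournament with code `T`. -/
def R (T i j : ℕ) : Bool :=
  if i < j then T.testBit (idx i j) else if j < i then !T.testBit (idx j i) else false

/-- The test for not containing the oriented bowtie. -/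
def freeB (t : Bool) (T : ℕ) : Bool :=
  (List.range 5).all fun c => (List.range 5).all fun a => !(R T a c) ||
    (List.range 5).all fun b => !(R T b c && R T a b) ||
      (List.range 5).all fun d => !(R T d c && (d != a) && (d != b)) ||
        (List.range 5).all fun e => !(R T c e && (if t then R T d e else R T e d))

lemma count_true : (((List.range 1024).filter (freeB true)).length = 224) := by decide +kernel

lemma count_false : (((List.range 1024).filter (freeB false)).length = 344) := by decide +kernel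

/-- The orientation relation of the tournament with code `T`. -/
def rel (T : ℕ) (u v : Fin 5) : Prop := R T u v = true

lemma rel_orient (T : ℕ) : IsOrientation (⊤ : SimpleGraph (Fin 5)) (rel T) := by
  intro u v
  rw [SimpleGraph.top_adj]
  unfold rel R
  rcases lt_trichotomy (u : ℕ) (v : ℕ) with h | h | h
  · have h1 : ¬ (v : ℕ) < u := by omega
    have h2 : u ≠ v := fun h3 => by rw [h3] at h; omega
    simp only [h, h1, if_true, if_false]
    cases T.testBit (idx u v) <;> simp [h2]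
  · have h2 : u = v := Fin.ext h
    subst h2
    simp
  · have h1 : ¬ (u : ℕ) < v := by omega
    have h2 : u ≠ v := fun h3 => by rw [h3] at h; omega
    simp only [h, h1, if_true, if_false]
    cases T.testBit (idx v u) <;> simp [h2]

lemma rel_free (t : Bool) (T : ℕ) (h : freeB t T = true) : ¬ Contains (bow t) (rel T) := by
  rintro ⟨f, hf, hs⟩
  have h10 : R T (f 1) (f 0) = true := hs 1 0 (by simp [bow])
  have h20 : R T (f 2) (f 0) = true := hs 2 0 (by simp [bow])
  have h12 : R T (f 1) (f 2) = true := hs 1 2 (by simp [bow])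
  have h30 : R T (f 3) (f 0) = true := hs 3 0 (by simp [bow])
  have h04 : R T (f 0) (f 4) = true := hs 0 4 (by simp [bow])
  have h34 : (if t then R T (f 3) (f 4) else R T (f 4) (f 3)) = true := by
    cases t
    · exact hs 4 3 (by simp [bow])
    · exact hs 3 4 (by simp [bow])
  have n1 : ((f 3 : ℕ) != (f 1 : ℕ)) = true := by
    rw [bne_iff_ne]
    intro h1
    have := hf (Fin.ext h1)
    revert this; decide
  have n2 : ((f 3 : ℕ) != (f 2 : ℕ)) = true := by
    rw [bne_iff_ne]
    intro h1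
    have := hf (Fin.ext h1)
    revert this; decide
  unfold freeB at h
  have g1 := List.all_eq_true.1 h (f 0 : ℕ) (List.mem_range.2 (f 0).2)
  have g2 := List.all_eq_true.1 g1 (f 1 : ℕ) (List.mem_range.2 (f 1).2)
  rw [h10, Bool.not_true, Bool.false_or] at g2
  have g3 := List.all_eq_true.1 g2 (f 2 : ℕ) (List.mem_range.2 (f 2).2)
  rw [h20, h12, Bool.and_true, Bool.not_true, Bool.false_or] at g3
  have g4 := List.all_eq_true.1 g3 (f 3 : ℕ) (List.mem_range.2 (f 3).2)
  rw [h30, n1, n2, Bool.and_true, Bool.and_true, Bool.not_true, Bool.false_or] at g4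
  have g5 := List.all_eq_true.1 g4 (f 4 : ℕ) (List.mem_range.2 (f 4).2)
  rw [h04, h34, Bool.and_true, Bool.not_true] at g5
  exact Bool.false_ne_true g5

lemma idx_cases : ∀ k < 10, ∃ i < 5, ∃ j < 5, i < j ∧ idx i j = k := by decide

lemma rel_inj (S T : ℕ) (hS : S < 1024) (hT : T < 1024) (h : rel S = rel T) : S = T := by
  apply Nat.eq_of_testBit_eq
  intro k
  by_cases hk : k < 10
  · obtain ⟨i, hi, j, hj, hij, rfl⟩ := idx_cases k hk
    have h1 : rel S ⟨i, hi⟩ ⟨j, hj⟩ = rel T ⟨i, hi⟩ ⟨j, hj⟩ := by rw [h]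
    unfold rel R at h1
    simp only [hij, if_true, eq_iff_iff] at h1
    cases hs : S.testBit (idx i j) <;> cases ht : T.testBit (idx i j) <;> simp_all
  · have hp : 1024 ≤ 2 ^ k := by
      calc 1024 = 2 ^ 10 := by norm_num
        _ ≤ 2 ^ k := Nat.pow_le_pow_right (by norm_num) (by omega)
    rw [Nat.testBit_lt_two_pow (lt_of_lt_of_le hS hp),
      Nat.testBit_lt_two_pow (lt_of_lt_of_le hT hp)]

lemma le_orientCount (t : Bool) :
    ((List.range 1024).filter (freeB t)).length ≤
      orientCount (⊤ : SimpleGraph (Fin 5)) (bow t) := by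
  classical
  have hnd : ((List.range 1024).filter (freeB t)).Nodup := List.nodup_range.filter _
  rw [← List.toFinset_card_of_nodup hnd, ← Set.ncard_coe_finset]
  unfold orientCount
  refine Set.ncard_le_ncard_of_injOn rel ?_ ?_ (Set.toFinite _)
  · intro T hT
    rw [Finset.mem_coe, List.mem_toFinset, List.mem_filter] at hT
    exact ⟨rel_orient T, rel_free t T hT.2⟩
  · intro S hS T hT h
    rw [Finset.mem_coe, List.mem_toFinset, List.mem_filter, List.mem_range] at hS hT
    exact rel_inj S T hS.1 hT.1 h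

lemma le_maxOrient (t : Bool) :
    orientCount (⊤ : SimpleGraph (Fin 5)) (bow t) ≤ maxOrient 5 (bow t) := by
  unfold maxOrient
  apply le_csSup
  · have : {k | ∃ G : SimpleGraph (Fin 5), orientCount G (bow t) = k} =
        Set.range (fun G : SimpleGraph (Fin 5) => orientCount G (bow t)) := rfl
    rw [this]
    exact (Set.finite_range _).bddAbove
  · exact ⟨⊤, rfl⟩

/-- A copy of the bowtie given by five vertices. -/
lemma copy_of (G : SimpleGraph (Fin 5)) (c a b d e : Fin 5) (h : [c, a, b, d, e].Nodup)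
    (h1 : G.Adj c a) (h2 : G.Adj c b) (h3 : G.Adj a b) (h4 : G.Adj c d) (h5 : G.Adj c e)
    (h6 : G.Adj d e) : bowtie ⊑ G := by
  let f : Fin 5 → Fin 5 := ![c, a, b, d, e]
  have hf : Function.Injective f := by
    have h7 := List.nodup_ofFn.1 (show (List.ofFn f).Nodup by simpa [f, List.ofFn_succ] using h)
    exact h7
  refine ⟨⟨⟨f, ?_⟩, hf⟩⟩
  intro u v huv
  have key : ∀ u v : Fin 5, bowtie.Adj u v → (u = 0 ∧ v ≠ 0) ∨ (v = 0 ∧ u ≠ 0) ∨
      (u = 1 ∧ v = 2) ∨ (u = 2 ∧ v = 1) ∨ (u = 3 ∧ v = 4) ∨ (u = 4 ∧ v = 3) := by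
    unfold bowtie
    simp only [SimpleGraph.fromRel_adj]
    decide
  have hc : ∀ v : Fin 5, v ≠ 0 → G.Adj c (f v) := by
    intro v hv
    fin_cases v
    · exact absurd rfl hv
    · exact h1
    · exact h2
    · exact h4
    · exact h5
  rcases key u v huv with ⟨rfl, hv⟩ | ⟨rfl, hu⟩ | ⟨rfl, rfl⟩ | ⟨rfl, rfl⟩ | ⟨rfl, rfl⟩ | ⟨rfl, rfl⟩
  · exact hc v hv
  · exact (hc u hu).symm
  · exact h3
  · exact h3.symm
  · exact h6
  · exact h6.symm

/-- The bowties on five vertices, as lists of positions of their six edges. -/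
def bowL : List (List ℕ) :=
  [[0, 1, 4, 2, 3, 9], [0, 2, 5, 1, 3, 8], [0, 3, 6, 1, 2, 7], [0, 4, 1, 5, 6, 9],
   [0, 5, 2, 4, 6, 8], [0, 6, 3, 4, 5, 7], [1, 4, 0, 7, 8, 9], [1, 7, 2, 4, 8, 6],
   [1, 8, 3, 4, 7, 5], [2, 5, 0, 7, 9, 8], [2, 7, 1, 5, 9, 6], [2, 9, 3, 5, 7, 4],
   [3, 6, 0, 8, 9, 7], [3, 8, 1, 6, 9, 5], [3, 9, 2, 6, 8, 4]]

/-- The number of edges of the graph with code `m`. -/
def pc (m : ℕ) : ℕ := (m.testBit 0).toNat + (m.testBit 1).toNat + (m.testBit 2).toNat +
  (m.testBit 3).toNat + (m.testBit 4).toNat + (m.testBit 5).toNat + (m.testBit 6).toNat +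
  (m.testBit 7).toNat + (m.testBit 8).toNat + (m.testBit 9).toNat

lemma bitsN : ((List.range 1024).all fun m => !(Nat.ble 8 (pc m)) ||
    bowL.any fun l => l.all fun k => m.testBit k) = true := by decide +kernel

lemma ex_aux (G : SimpleGraph (Fin 5)) [DecidableRel G.Adj] (hG : bowtie.Free G) :
    G.edgeFinset.card ≤ 7 := by
  classical
  by_contra hcon
  push Not at hcon
  apply hG
  let b : Fin 5 → Fin 5 → Bool := fun i j => decide (G.Adj i j)
  have hb : ∀ i j, b i j = true ↔ G.Adj i j := fun i j => decide_eq_true_iff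
  have hcard : 2 * G.edgeFinset.card = ∑ i : Fin 5, ∑ j : Fin 5, (b i j).toNat := by
    rw [← SimpleGraph.sum_degrees_eq_twice_card_edges]
    apply Finset.sum_congr rfl
    intro i _
    rw [← SimpleGraph.card_neighborFinset_eq_degree, SimpleGraph.neighborFinset_eq_filter,
      Finset.card_filter]
    apply Finset.sum_congr rfl
    intro j _
    by_cases h : G.Adj i j <;> simp [b, h]
  have hsym : ∀ i j, b i j = b j i := by
    intro i j
    rw [Bool.eq_iff_iff, hb, hb]
    exact G.adj_comm i j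
  have hirr : ∀ i, b i i = false := by
    intro i
    rw [Bool.eq_false_iff, Ne, hb]
    exact G.irrefl
  simp only [Fin.sum_univ_five, hirr, Bool.toNat_false, hsym 1 0, hsym 2 0, hsym 3 0, hsym 4 0,
    hsym 2 1, hsym 3 1, hsym 4 1, hsym 3 2, hsym 4 2, hsym 4 3] at hcard
  let P : Fin 10 → Fin 5 × Fin 5 := ![(0, 1), (0, 2), (0, 3), (0, 4), (1, 2), (1, 3), (1, 4), (2, 3), (2, 4), (3, 4)]
  set m := Nat.ofBits (fun k : Fin 10 => b (P k).1 (P k).2) with hm
  have hmlt : m < 1024 := Nat.ofBits_lt_two_pow _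
  have ht : ∀ k : Fin 10, m.testBit k = b (P k).1 (P k).2 := by
    intro k
    rw [hm, Nat.testBit_ofBits_lt _ _ k.2]
  have t0 : m.testBit 0 = b 0 1 := ht 0
  have t1 : m.testBit 1 = b 0 2 := ht 1
  have t2 : m.testBit 2 = b 0 3 := ht 2
  have t3 : m.testBit 3 = b 0 4 := ht 3
  have t4 : m.testBit 4 = b 1 2 := ht 4
  have t5 : m.testBit 5 = b 1 3 := ht 5
  have t6 : m.testBit 6 = b 1 4 := ht 6
  have t7 : m.testBit 7 = b 2 3 := ht 7
  have t8 : m.testBit 8 = b 2 4 := ht 8
  have t9 : m.testBit 9 = b 3 4 := ht 9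
  have h8 := List.all_eq_true.1 bitsN m (List.mem_range.2 hmlt)
  have hpc : 8 ≤ pc m := by
    unfold pc
    rw [t0, t1, t2, t3, t4, t5, t6, t7, t8, t9]
    omega
  rw [Nat.ble_eq_true_of_le hpc, Bool.not_true, Bool.false_or] at h8
  simp only [bowL, List.any_cons, List.any_nil, List.all_cons, List.all_nil, Bool.and_true,
    Bool.or_false, t0, t1, t2, t3, t4, t5, t6, t7, t8, t9, Bool.or_eq_true, Bool.and_eq_true,
    hb] at h8
  have sy : ∀ {i j}, G.Adj i j → G.Adj j i := fun h => h.symm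
  rcases h8 with ⟨x1, x2, x3, x4, x5, x6⟩ | ⟨x1, x2, x3, x4, x5, x6⟩ | ⟨x1, x2, x3, x4, x5, x6⟩ | ⟨x1, x2, x3, x4, x5, x6⟩ | ⟨x1, x2, x3, x4, x5, x6⟩ | ⟨x1, x2, x3, x4, x5, x6⟩ | ⟨x1, x2, x3, x4, x5, x6⟩ | ⟨x1, x2, x3, x4, x5, x6⟩ | ⟨x1, x2, x3, x4, x5, x6⟩ | ⟨x1, x2, x3, x4, x5, x6⟩ | ⟨x1, x2, x3, x4, x5, x6⟩ | ⟨x1, x2, x3, x4, x5, x6⟩ | ⟨x1, x2, x3, x4, x5, x6⟩ | ⟨x1, x2, x3, x4, x5, x6⟩ | ⟨x1, x2, x3, x4, x5, x6⟩
  · exact copy_of G 0 1 2 3 4 (by decide) x1 x2 x3 x4 x5 x6
  · exact copy_of G 0 1 3 2 4 (by decide) x1 x2 x3 x4 x5 x6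
  · exact copy_of G 0 1 4 2 3 (by decide) x1 x2 x3 x4 x5 x6
  · exact copy_of G 1 0 2 3 4 (by decide) (sy x1) x2 x3 x4 x5 x6
  · exact copy_of G 1 0 3 2 4 (by decide) (sy x1) x2 x3 x4 x5 x6
  · exact copy_of G 1 0 4 2 3 (by decide) (sy x1) x2 x3 x4 x5 x6
  · exact copy_of G 2 0 1 3 4 (by decide) (sy x1) (sy x2) x3 x4 x5 x6
  · exact copy_of G 2 0 3 1 4 (by decide) (sy x1) x2 x3 (sy x4) x5 x6
  · exact copy_of G 2 0 4 1 3 (by decide) (sy x1) x2 x3 (sy x4) x5 x6
  · exact copy_of G 3 0 1 2 4 (by decide) (sy x1) (sy x2) x3 (sy x4) x5 x6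
  · exact copy_of G 3 0 2 1 4 (by decide) (sy x1) (sy x2) x3 (sy x4) x5 x6
  · exact copy_of G 3 0 4 1 2 (by decide) (sy x1) x2 x3 (sy x4) (sy x5) x6
  · exact copy_of G 4 0 1 2 3 (by decide) (sy x1) (sy x2) x3 (sy x4) (sy x5) x6
  · exact copy_of G 4 0 2 1 3 (by decide) (sy x1) (sy x2) x3 (sy x4) (sy x5) x6
  · exact copy_of G 4 0 3 1 2 (by decide) (sy x1) (sy x2) x3 (sy x4) (sy x5) x6

lemma ex_le : SimpleGraph.extremalNumber 5 bowtie ≤ 7 := by
  classical
  have h5 : SimpleGraph.extremalNumber (Fintype.card (Fin 5)) bowtie ≤ 7 := by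
    rw [SimpleGraph.extremalNumber_le_iff]
    exact ex_aux
  rw [Fintype.card_fin] at h5
  exact h5

lemma bow_orient (t : Bool) : IsOrientation bowtie (bow t) := by
  intro u v
  unfold bowtie bow
  rw [SimpleGraph.fromRel_adj]
  cases t <;> fin_cases u <;> fin_cases v <;> simp

lemma pow_aux (x y : ℕ) (hx : x ≤ 7) (hy : 128 < y) : 2 ^ x < y := by
  have h1 : 2 ^ x ≤ 2 ^ 7 := Nat.pow_le_pow_right (by norm_num) hx
  have h2 : (2 : ℕ) ^ 7 = 128 := by norm_num
  rw [h2] at h1
  exact lt_of_le_of_lt h1 hy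

/-- For both types of orientations of the bowtie with exactly three centre edges directed toward
the centre, `D(5, s) > 2 ^ ex(5, B)`: more precisely `ex(5, B) ≤ 7`, while `D(5, s)` is at least
`224` (the triangle at the outgoing edge is transitive) or `344` (it is cyclic). -/
theorem result : SimpleGraph.extremalNumber 5 bowtie ≤ 7 ∧ 224 ≤ maxOrient 5 (bow true) ∧
    344 ≤ maxOrient 5 (bow false) ∧
    ∀ t : Bool, IsOrientation bowtie (bow t) ∧
      2 ^ SimpleGraph.extremalNumber 5 bowtie < maxOrient 5 (bow t) := by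
  have h1 := ex_le
  have h2 : 224 ≤ maxOrient 5 (bow true) := by
    have := (le_orientCount true).trans (le_maxOrient true)
    rwa [count_true] at this
  have h3 : 344 ≤ maxOrient 5 (bow false) := by
    have := (le_orientCount false).trans (le_maxOrient false)
    rwa [count_false] at this
  refine ⟨h1, h2, h3, fun t => ⟨bow_orient t, pow_aux _ _ h1 ?_⟩⟩
  cases t
  · exact lt_of_lt_of_le (by norm_num) h3
  · exact lt_of_lt_of_le (by norm_num) h2

end Pool.Agent.Results.MP_db21b4_co.FiveVertices
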